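import Pool.Agent.W4helper48.JN.Stm

/-!
# Project JN (MP_2da123_co), piece COMB: `CombStm`
-/

set_option autoImplicit false

namespace Pool.Agent.W2helper51.JN

open Pool.Agent.W4helper48.JN

/-- A numbering from an injective function with values below the number of elements. -/
theorem mkNum {V : Type} [Fintype V] {N : ℕ} (f : V → ℕ) (hf : ∀ u, f u < N)
    (inj : ∀ u v, f u = f v → u = v) (card : Fintype.card V = N) :
    ∃ e : V ≃ Fin N, ∀ u, (e u).val = f u := by
  have hb : Function.Bijective (fun u => (⟨f u, hf u⟩ : Fin N)) := by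
    rw [Fintype.bijective_iff_injective_and_card]
    refine ⟨fun u v h => inj u v (by simpa using h), by simp [card]⟩
  exact ⟨Equiv.ofBijective _ hb, fun u => rfl⟩

/-- Rotation: the numbering of a Hamiltonian outerplanar graph may start at any vertex. -/
theorem rotate {V : Type} (G : SimpleGraph V) (h : IsOuterHam G) (w : V) :
    ∃ (N : ℕ) (e : V ≃ Fin N), 3 ≤ N ∧ (e w).val = 0 ∧
    (∀ u v, (e u).val + 1 = (e v).val → G.Adj u v) ∧
    (∀ u v, (e u).val = 0 → (e v).val + 1 = N → G.Adj u v) ∧
    ∀ a b c d, e a < e b → e b < e c → e c < e d → G.Adj a c → G.Adj b d → False := by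
  obtain ⟨N, e, hN, h1, h2, h3⟩ := h
  let _ : Fintype V := Fintype.ofEquiv _ e.symm
  have hlt : ∀ u, (e u).val < N := fun u => (e u).isLt
  have hinj : ∀ u v, (e u).val = (e v).val → u = v := fun u v huv =>
    e.injective (Fin.ext huv)
  set p := (e w).val with hp
  have hpN : p < N := hlt w
  let f : V → ℕ := fun u => if p ≤ (e u).val then (e u).val - p else (e u).val + N - p
  have hfdef : ∀ u, (p ≤ (e u).val ∧ f u + p = (e u).val) ∨
      ((e u).val < p ∧ f u + p = (e u).val + N) := by
    intro u
    have := hlt u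
    by_cases hu : p ≤ (e u).val
    · left; refine ⟨hu, ?_⟩; simp only [f, if_pos hu]; omega
    · right; refine ⟨by omega, ?_⟩; simp only [f, if_neg hu]; omega
  obtain ⟨e', he'⟩ := mkNum (N := N) f (fun u => by
      have := hlt u; rcases hfdef u with h | h <;> omega) (fun u v huv => by
      apply hinj
      have := hlt u; have := hlt v
      rcases hfdef u with h | h <;> rcases hfdef v with h' | h' <;> omega) (by
      rw [Fintype.card_congr e, Fintype.card_fin])
  have h3' : ∀ a b c d, (e a).val < (e b).val → (e b).val < (e c).val →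
      (e c).val < (e d).val → G.Adj a c → G.Adj b d → False := h3
  refine ⟨N, e', hN, ?_, ?_, ?_, ?_⟩
  · rw [he']; rcases hfdef w with h | h <;> omega
  · intro u v huv
    rw [he', he'] at huv
    have hu := hlt u; have hv := hlt v
    rcases hfdef u with h | h <;> rcases hfdef v with h' | h'
    · exact h1 u v (by omega)
    · exact (h2 v u (by omega) (by omega)).symm
    · omega
    · exact h1 u v (by omega)
  · intro u v hu0 hvN
    rw [he'] at hu0 hvN
    have hu := hlt u; have hv := hlt v
    rcases hfdef u with h | h <;> rcases hfdef v with h' | h'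
    · exact h2 u v (by omega) (by omega)
    · exact (h1 v u (by omega)).symm
    · omega
    · omega
  · intro a b c d hab hbc hcd hac hbd
    have hab' : f a < f b := by rw [← he', ← he']; exact hab
    have hbc' : f b < f c := by rw [← he', ← he']; exact hbc
    have hcd' : f c < f d := by rw [← he', ← he']; exact hcd
    have ha := hlt a; have hb := hlt b; have hc := hlt c; have hd := hlt d
    rcases hfdef a with qa | qa <;> rcases hfdef b with qb | qb <;>
      rcases hfdef c with qc | qc <;> rcases hfdef d with qd | qd <;>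
      first
      | (exfalso; omega)
      | exact h3' a b c d (by omega) (by omega) (by omega) hac hbd
      | exact h3' d a b c (by omega) (by omega) (by omega) hbd.symm hac
      | exact h3' c d a b (by omega) (by omega) (by omega) hac.symm hbd.symm
      | exact h3' b c d a (by omega) (by omega) (by omega) hbd hac.symm

theorem adj_inl {V : Type} (G : SimpleGraph V) (n : ℕ) (u v : V) :
    (joinComplete G n).Adj (Sum.inl u) (Sum.inl v) ↔ G.Adj u v := by
  constructor
  · intro h; exact h.2 u v rfl rfl
  · intro h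
    refine ⟨fun h' => h.ne (Sum.inl.inj h'), ?_⟩
    intro u' v' hu hv
    rw [← Sum.inl.inj hu, ← Sum.inl.inj hv]; exact h

theorem adj_inr_right {V : Type} (G : SimpleGraph V) (n : ℕ) (x : V ⊕ Fin n) (i : Fin n)
    (h : x ≠ Sum.inr i) : (joinComplete G n).Adj x (Sum.inr i) :=
  ⟨h, fun _ _ _ hv => by cases hv⟩

theorem adj_inr_left {V : Type} (G : SimpleGraph V) (n : ℕ) (x : V ⊕ Fin n) (i : Fin n)
    (h : x ≠ Sum.inr i) : (joinComplete G n).Adj (Sum.inr i) x :=
  (adj_inr_right G n x i h).symm

theorem comb_one {V : Type} [Fintype V] (G : SimpleGraph V)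
    (h : IsOuterHam (joinComplete G 1)) : IsPathGraph G ∧ 2 ≤ Fintype.card V := by
  obtain ⟨N, e, hN, hw, h1, h2, h3⟩ := rotate _ h (Sum.inr 0)
  have hcard : Fintype.card V + 1 = N := by
    have := Fintype.card_congr e
    simpa using this
  have hlt : ∀ u, (e u).val < N := fun u => (e u).isLt
  have hinj : ∀ u v, (e u).val = (e v).val → u = v := fun u v huv =>
    e.injective (Fin.ext huv)
  have hpos : ∀ u : V, 0 < (e (Sum.inl u)).val := by
    intro u
    rcases Nat.eq_zero_or_pos (e (Sum.inl u)).val with h0 | h0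
    · have := hinj (Sum.inl u) (Sum.inr 0) (by rw [h0, hw]); cases this
    · exact h0
  obtain ⟨e', he'⟩ := mkNum (N := Fintype.card V) (fun u : V => (e (Sum.inl u)).val - 1)
    (fun u => by have := hpos u; have := hlt (Sum.inl u); omega)
    (fun u v huv => by
      have := hpos u; have := hpos v
      have huv2 : (e (Sum.inl u)).val - 1 = (e (Sum.inl v)).val - 1 := huv
      have h := hinj (Sum.inl u) (Sum.inl v) (by omega)
      exact Sum.inl.inj h) rfl
  refine ⟨⟨Fintype.card V, e', ?_⟩, by omega⟩
  have key : ∀ u v, (e (Sum.inl u)).val < (e (Sum.inl v)).val → G.Adj u v →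
      (e (Sum.inl u)).val + 1 = (e (Sum.inl v)).val := by
    intro u v huv hadj
    by_contra hne
    have hv := hlt (Sum.inl v)
    obtain ⟨x, hx⟩ := e.surjective ⟨(e (Sum.inl u)).val + 1, by omega⟩
    have hx' : (e x).val = (e (Sum.inl u)).val + 1 := by rw [hx]
    have hxne : x ≠ Sum.inr 0 := by
      rintro rfl; omega
    refine h3 (Sum.inr 0) (Sum.inl u) x (Sum.inl v) ?_ ?_ ?_ (adj_inr_left G 1 x 0 hxne)
      ((adj_inl G 1 u v).2 hadj)
    · rw [Fin.lt_def, hw]; exact hpos u
    · rw [Fin.lt_def]; omega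
    · rw [Fin.lt_def]; omega
  intro u v
  rw [he', he']
  have hu := hpos u; have hv := hpos v
  constructor
  · intro hadj
    rcases lt_trichotomy (e (Sum.inl u)).val (e (Sum.inl v)).val with hlt' | heq | hgt
    · left; have := key u v hlt' hadj; omega
    · exfalso
      have := Sum.inl.inj (hinj _ _ heq)
      exact hadj.ne this
    · right; have := key v u hgt hadj.symm; omega
  · rintro (h | h)
    · exact (adj_inl G 1 u v).1 (h1 _ _ (by omega))
    · exact ((adj_inl G 1 v u).1 (h1 _ _ (by omega))).symm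

theorem comb_two {V : Type} [Fintype V] [Nonempty V] (G : SimpleGraph V)
    (h : IsOuterHam (joinComplete G 2)) :
    Fintype.card V = 1 ∨ (Fintype.card V = 2 ∧ G = ⊥) := by
  obtain ⟨N, e, hN, hw, h1, h2, h3⟩ := rotate _ h (Sum.inr 0)
  have hinj : ∀ u v, (e u).val = (e v).val → u = v := fun u v huv =>
    e.injective (Fin.ext huv)
  have hpos : ∀ x, x ≠ Sum.inr 0 → 0 < (e x).val := by
    intro x hx
    rcases Nat.eq_zero_or_pos (e x).val with h0 | h0
    · exact absurd (hinj x (Sum.inr 0) (by rw [h0, hw])) hx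
    · exact h0
  have h3' : ∀ a b c d, (e a).val < (e b).val → (e b).val < (e c).val →
      (e c).val < (e d).val → (joinComplete G 2).Adj a c → (joinComplete G 2).Adj b d →
      False := h3
  have hne : ∀ u : V, (e (Sum.inl u)).val ≠ (e (Sum.inr 1)).val := by
    intro u hu; have := hinj _ _ hu; cases this
  have hu0 : ∀ u : V, 0 < (e (Sum.inl u)).val := fun u => hpos _ (by simp)
  have hq0 : 0 < (e (Sum.inr 1)).val := hpos _ (by simp)
  -- two vertices of `V` are on different sides
  have hside : ∀ u v : V, (e (Sum.inl u)).val < (e (Sum.inl v)).val →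
      (e (Sum.inl u)).val < (e (Sum.inr 1)).val ∧
      (e (Sum.inr 1)).val < (e (Sum.inl v)).val := by
    intro u v huv
    have hu := hne u; have hv := hne v
    by_contra hcon
    rcases lt_or_gt_of_ne hv with hv' | hv'
    · refine h3' (Sum.inr 0) (Sum.inl u) (Sum.inl v) (Sum.inr 1) ?_ huv hv'
        (adj_inr_left _ _ _ _ (by simp)) (adj_inr_right _ _ _ _ (by simp))
      rw [hw]; exact hu0 u
    · refine h3' (Sum.inr 0) (Sum.inr 1) (Sum.inl u) (Sum.inl v) ?_ ?_ huv
        (adj_inr_left _ _ _ _ (by simp)) (adj_inr_left _ _ _ _ (by simp))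
      · rw [hw]; exact hq0
      · rcases lt_or_gt_of_ne hu with hu' | hu'
        · exact absurd ⟨hu', hv'⟩ hcon
        · exact hu'
  have hside' : ∀ u v : V, u ≠ v → ((e (Sum.inl u)).val < (e (Sum.inr 1)).val ∧
      (e (Sum.inr 1)).val < (e (Sum.inl v)).val) ∨
      ((e (Sum.inl v)).val < (e (Sum.inr 1)).val ∧
      (e (Sum.inr 1)).val < (e (Sum.inl u)).val) := by
    intro u v huv
    rcases lt_trichotomy (e (Sum.inl u)).val (e (Sum.inl v)).val with h | h | h
    · exact Or.inl (hside u v h)
    · exact absurd (Sum.inl.inj (hinj _ _ h)) huv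
    · exact Or.inr (hside v u h)
  have hcard : Fintype.card V ≤ 2 := by
    by_contra hcon
    obtain ⟨a, b, c, hab, hac, hbc⟩ := (Fintype.two_lt_card_iff).1 (by omega :
      2 < Fintype.card V)
    have h1 := hside' a b hab
    have h2 := hside' a c hac
    have h3 := hside' b c hbc
    omega
  have hnoadj : ∀ u v : V, (e (Sum.inl u)).val < (e (Sum.inl v)).val → ¬ G.Adj u v := by
    intro u v huv hadj
    obtain ⟨hu, hv⟩ := hside u v huv
    refine h3' (Sum.inr 0) (Sum.inl u) (Sum.inr 1) (Sum.inl v) ?_ hu hv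
        (adj_inr_left _ _ _ _ (by simp)) ((adj_inl _ _ _ _).2 hadj)
    rw [hw]; exact hu0 u
  have hG : G = ⊥ := by
    ext u v
    simp only [SimpleGraph.bot_adj, iff_false]
    intro hadj
    rcases lt_trichotomy (e (Sum.inl u)).val (e (Sum.inl v)).val with h | h | h
    · exact hnoadj u v h hadj
    · exact hadj.ne (Sum.inl.inj (hinj _ _ h))
    · exact hnoadj v u h hadj.symm
  have hpos' : 0 < Fintype.card V := Fintype.card_pos
  rcases (by omega : Fintype.card V = 1 ∨ Fintype.card V = 2) with h | h
  · exact Or.inl h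
  · exact Or.inr ⟨h, hG⟩

theorem no_K4 {V : Type} (G : SimpleGraph V) (h : IsOuterHam G) (a b c d : V)
    (hab : G.Adj a b) (hac : G.Adj a c) (had : G.Adj a d) (hbc : G.Adj b c)
    (hbd : G.Adj b d) (hcd : G.Adj c d) : False := by
  obtain ⟨N, e, hN, hw, h1, h2, h3⟩ := rotate _ h a
  have hinj : ∀ u v, (e u).val = (e v).val → u = v := fun u v huv =>
    e.injective (Fin.ext huv)
  have h3' : ∀ a b c d, (e a).val < (e b).val → (e b).val < (e c).val →
      (e c).val < (e d).val → G.Adj a c → G.Adj b d → False := h3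
  have nb : (e a).val < (e b).val := by
    rcases Nat.eq_zero_or_pos (e b).val with h0 | h0
    · exact absurd (hinj a b (by omega)) hab.ne
    · omega
  have nc : (e a).val < (e c).val := by
    rcases Nat.eq_zero_or_pos (e c).val with h0 | h0
    · exact absurd (hinj a c (by omega)) hac.ne
    · omega
  have nd : (e a).val < (e d).val := by
    rcases Nat.eq_zero_or_pos (e d).val with h0 | h0
    · exact absurd (hinj a d (by omega)) had.ne
    · omega
  have k1 : (e b).val ≠ (e c).val := fun h => hbc.ne (hinj _ _ h)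
  have k2 : (e b).val ≠ (e d).val := fun h => hbd.ne (hinj _ _ h)
  have k3 : (e c).val ≠ (e d).val := fun h => hcd.ne (hinj _ _ h)
  rcases lt_or_gt_of_ne k1 with k1 | k1 <;> rcases lt_or_gt_of_ne k2 with k2 | k2 <;>
    rcases lt_or_gt_of_ne k3 with k3 | k3 <;>
    first
    | (exfalso; omega)
    | exact h3' a b c d nb k1 k3 hac hbd
    | exact h3' a b d c nb k2 k3 had hbc
    | exact h3' a c b d nc k1 k2 hab hcd
    | exact h3' a c d b nc k3 k2 had hbc.symm
    | exact h3' a d b c nd k2 k1 hab hcd.symm
    | exact h3' a d c b nd k3 k1 hac hbd.symm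

theorem comb_zero {V : Type} (G : SimpleGraph V)
    (h : IsOuterHam (joinComplete G 0)) : IsOuterHam G := by
  obtain ⟨N, e, hN, h1, h2, h3⟩ := h
  refine ⟨N, (Equiv.sumEmpty V (Fin 0)).symm.trans e, hN, ?_, ?_, ?_⟩
  · intro u v huv
    exact (adj_inl G 0 u v).1 (h1 _ _ huv)
  · intro u v hu hv
    exact (adj_inl G 0 u v).1 (h2 _ _ hu hv)
  · intro a b c d hab hbc hcd hac hbd
    exact h3 _ _ _ _ hab hbc hcd ((adj_inl G 0 a c).2 hac) ((adj_inl G 0 b d).2 hbd)

theorem comb_path {V : Type} [Fintype V] (G : SimpleGraph V) (hp : IsPathGraph G)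
    (hc : 2 ≤ Fintype.card V) : IsOuterHam (joinComplete G 1) := by
  obtain ⟨N, e, he⟩ := hp
  have hN : Fintype.card V = N := by rw [Fintype.card_congr e, Fintype.card_fin]
  have hlt : ∀ u, (e u).val < N := fun u => (e u).isLt
  have hinj : ∀ u v, (e u).val = (e v).val → u = v := fun u v huv =>
    e.injective (Fin.ext huv)
  let f : V ⊕ Fin 1 → ℕ := fun x => Sum.elim (fun u => (e u).val) (fun _ => N) x
  have fl : ∀ u, f (Sum.inl u) = (e u).val := fun _ => rfl
  have fr : ∀ i, f (Sum.inr i) = N := fun _ => rfl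
  obtain ⟨e', he'⟩ := mkNum (N := N + 1) f (by
      rintro (u | i)
      · rw [fl]; have := hlt u; omega
      · rw [fr]; omega) (by
      rintro (u | i) (v | j) h
      · rw [fl, fl] at h; rw [hinj _ _ h]
      · rw [fl, fr] at h; have := hlt u; omega
      · rw [fl, fr] at h; have := hlt v; omega
      · rw [Subsingleton.elim i j]) (by simp [hN])
  refine ⟨N + 1, e', by omega, ?_, ?_, ?_⟩
  · rintro (u | i) (v | j) h
    · rw [he', he', fl, fl] at h
      exact (adj_inl G 1 u v).2 ((he u v).2 (Or.inl h))
    · exact adj_inr_right _ _ _ _ (by simp)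
    · exact adj_inr_left _ _ _ _ (by simp)
    · rw [he', he', fr, fr] at h; omega
  · rintro (u | i) (v | j) h h'
    · rw [he', fl] at h'; have := hlt v; omega
    · exact adj_inr_right _ _ _ _ (by simp)
    · rw [he', fr] at h; omega
    · rw [he', fr] at h; omega
  · intro a b c d hab hbc hcd hac hbd
    rw [Fin.lt_def, he', he'] at hab hbc hcd
    rcases a with a | i
    · rcases c with c | j
      · rw [fl] at hab hbc hcd
        have := (he a c).1 ((adj_inl G 1 a c).1 hac)
        omega
      · rcases d with d | k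
        · rw [fr, fl] at hcd; have := hlt d; omega
        · rw [fr, fr] at hcd; omega
    · rcases b with b | j
      · rw [fr, fl] at hab; have := hlt b; omega
      · rw [fr, fr] at hab; omega

theorem comb_bot {V : Type} [Fintype V] (G : SimpleGraph V) (hc : Fintype.card V = 2)
    (hG : G = ⊥) : IsOuterHam (joinComplete G 2) := by
  obtain ⟨e⟩ : Nonempty (V ≃ Fin 2) := ⟨Fintype.equivFinOfCardEq hc⟩
  let f : V ⊕ Fin 2 → ℕ := fun x => Sum.elim (fun u => 2 * (e u).val) (fun i => 2 * i.val + 1) x
  have fl : ∀ u, f (Sum.inl u) = 2 * (e u).val := fun _ => rfl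
  have fr : ∀ i, f (Sum.inr i) = 2 * i.val + 1 := fun _ => rfl
  have hlt : ∀ u, (e u).val < 2 := fun u => (e u).isLt
  obtain ⟨e', he'⟩ := mkNum (N := 4) f (by
      rintro (u | i)
      · rw [fl]; have := hlt u; omega
      · rw [fr]; have := i.isLt; omega) (by
      rintro (u | i) (v | j) h
      · rw [fl, fl] at h; rw [e.injective (Fin.ext (by omega : (e u).val = (e v).val))]
      · rw [fl, fr] at h; omega
      · rw [fl, fr] at h; omega
      · rw [fr, fr] at h; rw [Fin.ext (by omega : i.val = j.val)]) (by simp [hc])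
  refine ⟨4, e', by omega, ?_, ?_, ?_⟩
  · rintro (u | i) (v | j) h
    · rw [he', he', fl, fl] at h; omega
    · exact adj_inr_right _ _ _ _ (by simp)
    · exact adj_inr_left _ _ _ _ (by simp)
    · rw [he', he', fr, fr] at h; omega
  · rintro (u | i) (v | j) h h'
    · rw [he', fl] at h'; omega
    · exact adj_inr_right _ _ _ _ (by simp)
    · rw [he', fr] at h; omega
    · rw [he', fr] at h; omega
  · intro a b c d hab hbc hcd hac hbd
    have hd := (e' d).isLt
    rw [Fin.lt_def, he', he'] at hab hbc hcd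
    rw [he'] at hd
    rcases a with a | i
    · rcases c with c | j
      · have := (adj_inl G 2 a c).1 hac
        rw [hG] at this
        exact this
      · rw [fr] at hbc hcd; omega
    · rw [fr] at hab; omega

theorem comb : CombStm := by
  refine ⟨?_, ?_, ?_⟩
  · intro V _ _ G n h
    match n, h with
    | 0, h => exact Or.inl ⟨rfl, comb_zero G h⟩
    | 1, h => exact Or.inr (Or.inl ⟨rfl, comb_one G h⟩)
    | 2, h => exact Or.inr (Or.inr ⟨rfl, comb_two G h⟩)
    | (k + 3), h =>
      exfalso
      obtain ⟨v⟩ := (inferInstance : Nonempty V)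
      have hne : ∀ i : Fin (k + 3), (Sum.inl v : V ⊕ Fin (k + 3)) ≠ Sum.inr i := by
        intro i; simp
      have h01 : (⟨0, by omega⟩ : Fin (k + 3)) ≠ ⟨1, by omega⟩ := by simp
      have h02 : (⟨0, by omega⟩ : Fin (k + 3)) ≠ ⟨2, by omega⟩ := by simp
      have h12 : (⟨1, by omega⟩ : Fin (k + 3)) ≠ ⟨2, by omega⟩ := by simp
      exact no_K4 _ h (Sum.inl v) (Sum.inr ⟨0, by omega⟩) (Sum.inr ⟨1, by omega⟩)
        (Sum.inr ⟨2, by omega⟩)
        (adj_inr_right _ _ _ _ (hne _)) (adj_inr_right _ _ _ _ (hne _))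
        (adj_inr_right _ _ _ _ (hne _))
        (adj_inr_right _ _ _ _ (fun h => h01 (Sum.inr.inj h)))
        (adj_inr_right _ _ _ _ (fun h => h02 (Sum.inr.inj h)))
        (adj_inr_right _ _ _ _ (fun h => h12 (Sum.inr.inj h)))
  · intro V _ G hp hc
    exact comb_path G hp hc
  · intro V _ G hc hG
    exact comb_bot G hc hG

theorem p_comb : CombStm := comb

end Pool.Agent.W2helper51.JN
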